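import Pool.Agent.Run7.h670.CL.Num
import Pool.Agent.Run7.h125.TU.Final

/-!
# `1 - π(K_{t+1}^t) ≤ 1.743 / (t+1)` for large `t`, and `π(K_9^8) ≥ 1 - 6325/32768`

Linear codes over a fixed large field with a clean second stage (helper670, handed in as
`MP_465f8a_co/CleanLinearCodes` in terms of Turán numbers), and the 8-uniform construction of
helper125 (`MP_465f8a_co/AlternatingFormCodes`), in the form of densities `π(K_m^k)`; for all
smaller systems the densities themselves enter through a Poisson average. `ex` and `turanDensity`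
are those of `Pool.Agent.H120R2.CliqueDefs`.
-/

set_option autoImplicit false

open Filter Topology

namespace Pool.Agent.Results.MP_a4d830_co.CleanLinearCodes

open Pool.Agent.H120R2.Clique

/-- The Poisson average `y · E[1 - π(K_{N+1}^N)]`, `N` Poisson distributed with mean `y`. -/
noncomputable def poissonMean (y : ℝ) : ℝ :=
  y * ∑' j : ℕ, Real.exp (-y) * y ^ j / (j.factorial : ℝ) * (1 - turanDensity j (j + 1))

/-- (0) `turanDensity k m = π(K_m^k)` is the limit of `ex(n, K_m^k) / C(n, k)`.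
(1) `π(K_9^8) ≥ 1 - 6325/32768` and `π(K_10^9) ≥ 1 - 6325/32768`.
(2) For all sufficiently large `t`, `π(K_{t+1}^t) ≥ 1 - 1.743 / (t+1)`.
(3) The limit `L` of the numbers `(t+1) (1 - π(K_{t+1}^t))` is at most `1.7427`, and for all
`y, θ > 0` with `P = e^(-(y+θ)) < 1/2`,
`L ≤ (poissonMean y + θ e^(-y)) / (1 - √(P / (1 - P)))²`. -/
theorem result :
    (∀ k m : ℕ, Tendsto (fun n : ℕ => (ex n k m : ℝ) / (n.choose k : ℝ)) atTop
      (𝓝 (turanDensity k m))) ∧
    1 - 6325 / 32768 ≤ turanDensity 8 9 ∧ 1 - 6325 / 32768 ≤ turanDensity 9 10 ∧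
    (∃ t₀ : ℕ, ∀ t : ℕ, t₀ ≤ t → 1 - 1.743 / ((t : ℝ) + 1) ≤ turanDensity t (t + 1)) ∧
    ∃ L : ℝ, Tendsto (fun t : ℕ => ((t : ℝ) + 1) * (1 - turanDensity t (t + 1))) atTop (𝓝 L) ∧
      L ≤ 1.7427 ∧
      ∀ y θ : ℝ, 0 < y → 0 < θ → Real.exp (-(y + θ)) < 1 / 2 →
        L ≤ (poissonMean y + θ * Real.exp (-y)) /
          (1 - Real.sqrt (Real.exp (-(y + θ)) / (1 - Real.exp (-(y + θ))))) ^ 2 := by
  have h8 : Run7.h538.LC.tau 1 8 ≤ 6325 / 32768 :=
    Run7.h538.LC.tau_le_of_tur Run7.h125.TU.tur_eight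
  have h9 : Run7.h538.LC.tau 1 9 ≤ 6325 / 32768 :=
    Run7.h538.LC.tau_le_of_tur Run7.h125.TU.tur_eight.succ
  have e8 : Run7.h538.LC.tau 1 8 = 1 - turanDensity 8 9 := rfl
  have e9 : Run7.h538.LC.tau 1 9 = 1 - turanDensity 9 10 := rfl
  obtain ⟨L, hL⟩ := Run7.h538.LC.exists_limit (R := 1) le_rfl
  have hnum := Run7.h670.CL.L_num hL
  have hL' : Tendsto (fun t : ℕ => ((t : ℝ) + 1) * (1 - turanDensity t (t + 1))) atTop (𝓝 L) :=
    hL.congr fun t => Run7.h538.LC.GG_one t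
  refine ⟨fun k m => ratio_tendsto k m, by linarith, by linarith, ?_, L, hL', hnum,
    fun y θ hy hθ h2 => Run7.h670.CL.closed hL hy hθ h2⟩
  have hlt : L < 1.743 := by
    refine hnum.trans_lt ?_
    norm_num
  obtain ⟨t₀, ht₀⟩ := eventually_atTop.1 (hL'.eventually (gt_mem_nhds hlt))
  refine ⟨t₀, fun t ht => ?_⟩
  have h1 : ((t : ℝ) + 1) * (1 - turanDensity t (t + 1)) < 1.743 := ht₀ t ht
  have h0 : (0 : ℝ) < (t : ℝ) + 1 := by positivity
  have h3 : 1 - turanDensity t (t + 1) ≤ 1.743 / ((t : ℝ) + 1) := by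
    rw [le_div_iff₀ h0]
    linarith
  linarith

end Pool.Agent.Results.MP_a4d830_co.CleanLinearCodes
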