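import Pool.Agent.Run7.h538.LC.Num

/-!
# The limit constants of `1 - π(K_{t+R}^t)` for a fixed gap `R`

The notions are those of `Pool.Agent.H120R2.CliqueDefs`: `ex n k m = ex(n, K_m^k)` and
`turanDensity k m = π(K_m^k)`.

Outline.  Let `τ_R(t) = 1 - π(K_{t+R}^t)`, the least relative size of families of `t`-sets with a
member in every `(t+R)`-set.  Given `j` large and `k` much larger, split the vertices into parts of
random sizes; a good system for `(j, R)` placed on the parts gives one for `(k, R)` with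
`C(k+R,R) τ_R(k) ≤ (1 + o(1)) C(j+R,R) τ_R(j)`.  Hence `C(t+R,R) τ_R(t)` converges.  For `R = 1` the
recursion which lets the parts missed by a random binomial choice carry the systems for all smaller
uniformities bounds the limit by `Φ(l)` for every `l > 0`; the Poisson average in `Φ(l)` converges
itself to the limit, so nothing is lost in this recursion.
-/

set_option autoImplicit false

open Filter Topology

namespace Pool.Agent.Results.MP_a4d830_co.GapLimitConstants

open Pool.Agent.H120R2.Clique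

/-- The Poisson average `l · E[1 - π(K_{N+1}^N)]`, `N` Poisson distributed with mean `l`. -/
noncomputable def poissonMean (l : ℝ) : ℝ :=
  l * ∑' j : ℕ, Real.exp (-l) * l ^ j / (j.factorial : ℝ) * (1 - turanDensity j (j + 1))

/-- `Φ(l) = (1 + e^(-l/2)) / (1 - e^(-l/2)) · l · E[1 - π(K_{N+1}^N)]`. -/
noncomputable def Phi (l : ℝ) : ℝ :=
  (1 + Real.exp (-(l / 2))) / (1 - Real.exp (-(l / 2))) * poissonMean l

/-- All densities `π(K_m^k)` exist.  For every `R ≥ 1` the numbers
`C(t+R, R) (1 - π(K_{t+R}^t))` converge as `t → ∞`; the limit `L` satisfies `1 ≤ L` and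
`L ≤ (log x + 1 - 1/x) / (1 - exp(-(log x + x - 1)/(R+1)))^(R+1)` for all `x > 1`.
For `R = 1` the limit is the infimum over `l > 0` and the limit for `l → ∞` of `Φ(l)`, and it is at
most `1.919`. -/
theorem result :
    (∀ k m : ℕ, Tendsto (fun n : ℕ => (ex n k m : ℝ) / (n.choose k : ℝ)) atTop
      (𝓝 (turanDensity k m))) ∧
    (∀ R : ℕ, 1 ≤ R → ∃ L : ℝ,
      Tendsto (fun t : ℕ => ((t + R).choose R : ℝ) * (1 - turanDensity t (t + R))) atTop (𝓝 L) ∧
      1 ≤ L ∧
      ∀ x : ℝ, 1 < x → L ≤ (Real.log x + 1 - 1 / x) /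
        (1 - Real.exp (-((Real.log x + x - 1) / ((R : ℝ) + 1)))) ^ (R + 1)) ∧
    ∃ L : ℝ, Tendsto (fun t : ℕ => ((t : ℝ) + 1) * (1 - turanDensity t (t + 1))) atTop (𝓝 L) ∧
      1 ≤ L ∧ L ≤ 1.919 ∧ (∀ l : ℝ, 0 < l → L ≤ Phi l) ∧ Tendsto Phi atTop (𝓝 L) := by
  refine ⟨fun k m => ratio_tendsto k m, fun R hR => ?_, ?_⟩
  · obtain ⟨L, hL⟩ := Run7.h538.LC.exists_limit hR
    obtain ⟨h1, h2⟩ := Run7.h538.LC.limit_bounds hR hL
    exact ⟨L, hL, h1, h2⟩
  · obtain ⟨L, hL⟩ := Run7.h538.LC.exists_limit (R := 1) le_rfl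
    obtain ⟨h1, -⟩ := Run7.h538.LC.limit_bounds (R := 1) le_rfl hL
    have h3 : ∀ l : ℝ, 0 < l → L ≤ Phi l := fun l hl => Run7.h538.LC.le_Phi hL hl
    have h4 : Tendsto Phi atTop (𝓝 L) := Run7.h538.LC.Phi_tendsto hL
    refine ⟨L, ?_, h1, ?_, h3, h4⟩
    · refine hL.congr fun t => ?_
      exact Run7.h538.LC.GG_one t
    · have h5 := h3 (137 / 20) (by norm_num)
      have h6 : Phi (137 / 20) ≤ 1919 / 1000 := Run7.h538.LC.Phi_num
      have e : (1.919 : ℝ) = 1919 / 1000 := by norm_num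
      rw [e]
      exact h5.trans h6

end Pool.Agent.Results.MP_a4d830_co.GapLimitConstants
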