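import Pool.Agent.Run7.h583.K64.Fin

/-!
# `π(K_6^4) ≤ 0.860636`

The notions are those of `Pool.Agent.H120R2.CliqueDefs`: `ex n k m = ex(n, K_m^k)` and
`turanDensity k m = π(K_m^k)`.

Outline. For five vertices `w` of a 4-graph let `t(w)` be the number of edges among them. A sum of
squares over the six 4-graphs on five labelled vertices (flags with six vertices, products of two
flags on seven vertices, 147 squares in all, closed under the symmetries of the roots) bounds the
average of `t(w)` in a 4-graph without `K_6^4`. The inequality is checked by the kernel for each of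
the 155 classes of 4-graphs on six vertices other than `K_6^4` and for each of the `2^20` links of a
seventh vertex. The frame of the computation is that of the bound `π(K_5^4) ≤ 0.690621` of the
starting library.
-/

set_option autoImplicit false

open Filter Topology

namespace Pool.Agent.Results.MP_a4d830_co.SixCliqueFourUniform

open Pool.Agent.H120R2.Clique

/-- The limit `π(K_6^4)` of `ex(n, K_6^4) / C(n,4)` exists and is at most `0.860636`; and every
4-graph on `n > 0` vertices without `K_6^4` has at most `0.860636 n^4 / 24` edges. -/
theorem result :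
    Tendsto (fun n : ℕ => (ex n 4 6 : ℝ) / (n.choose 4 : ℝ)) atTop (𝓝 (turanDensity 4 6)) ∧
    turanDensity 4 6 ≤ 0.860636 ∧
    ∀ (n : ℕ) (G : Finset (Finset (Fin n))), 0 < n → (∀ A ∈ G, A.card = 4) → ¬ HasClique G 4 6 →
      24 * (G.card : ℝ) ≤ 0.860636 * (n : ℝ) ^ 4 :=
  ⟨ratio_tendsto 4 6, Pool.Agent.Run7.h583.K64.main,
    fun _ _ hn hr hK => Pool.Agent.Run7.h583.K64.edges hn hr hK⟩

end Pool.Agent.Results.MP_a4d830_co.SixCliqueFourUniform
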