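import Pool.Agent.Run7.h678.TB.Main

set_option autoImplicit false

namespace Pool.Agent.Results.MP_a4d830_co.StabilitySaturated

open Finset

/-- `G` is a 3-graph on `V` in which no four vertices span all four triples. -/
def TetrahedronFree {V : Type} [DecidableEq V] (G : Finset (Finset V)) : Prop :=
  (∀ e ∈ G, e.card = 3) ∧ ∀ S : Finset V, S.card = 4 → ∃ e, e ⊆ S ∧ e.card = 3 ∧ e ∉ G

/-- The defects of an edge `e` of `G`: the further vertices which do not span exactly three edges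
together with `e` (three is the largest possible number in a tetrahedron-free 3-graph). -/
def defects {V : Type} [Fintype V] [DecidableEq V] (G : Finset (Finset V)) (e : Finset V) :
    Finset V :=
  univ.filter (fun x => x ∉ e ∧ (G.filter (fun f => f ⊆ insert x e)).card ≠ 3)

/-- The digraph on `3` columns and `r` layers given by the signs `σ`: there is an arc from `x` to
`y` when the column of `y` is the column of `x` plus one (modulo 3) if the sign of the higher of
the two layers is positive, and plus two if it is negative. -/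
def Arc {r : ℕ} (σ : Fin r → Bool) (x y : Fin 3 × Fin r) : Prop :=
  y.1 = x.1 + (if σ (max x.2 y.2) then 1 else 2)

open Classical in
/-- The configuration of Turan, Brown and Kostochka with signs `σ`: the triples in which no
vertex sends arcs to both other vertices and no vertex is joined to neither of them by an arc. -/
noncomputable def kostochka {r : ℕ} (σ : Fin r → Bool) : Finset (Finset (Fin 3 × Fin r)) :=
  (univ.powersetCard 3).filter (fun t => ∀ u ∈ t,
    ¬ (∀ v ∈ t, v ≠ u → Arc σ u v) ∧ ¬ (∀ v ∈ t, v ≠ u → ¬ Arc σ u v ∧ ¬ Arc σ v u))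

/-- The layer `m`. -/
def layer {r : ℕ} (m : Fin r) : Finset (Fin 3 × Fin r) := univ.filter (fun x => x.2 = m)

/-- The sets `B i` are pairwise disjoint edges of `G` which cover all but at most `η n` of the `n`
vertices, and the total number of their defects is at most `η n ^ 2` (so they are saturated on
the average). -/
def NearlySaturated {V : Type} [Fintype V] [DecidableEq V] (η : ℝ) (G : Finset (Finset V)) {r : ℕ}
    (B : Fin r → Finset V) : Prop :=
  (∀ i, B i ∈ G) ∧ (∀ i j, i ≠ j → Disjoint (B i) (B j)) ∧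
    (Fintype.card V : ℝ) - 3 * r ≤ η * (Fintype.card V : ℝ) ∧
    (∑ i, ((defects G (B i)).card : ℝ)) ≤ η * (Fintype.card V : ℝ) ^ 2

open Run7.h678.Sat Run7.h678.TB

section aux
variable {V : Type} [Fintype V] [DecidableEq V]

/-- the missing triples -/
def miss (G : Finset (Finset V)) : Finset (Finset V) := (univ.powersetCard 3) \ G

theorem mem_miss {G : Finset (Finset V)} {t : Finset V} :
    t ∈ miss G ↔ t.card = 3 ∧ t ∉ G := by
  simp [miss]

theorem cov_miss {G : Finset (Finset V)} (hG : TetrahedronFree G) : Cov (miss G) := by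
  refine ⟨fun t ht => (mem_miss.mp ht).1, fun S hS => ?_⟩
  obtain ⟨e, h1, h2, h3⟩ := hG.2 S hS
  exact ⟨e, mem_miss.mpr ⟨h2, h3⟩, h1⟩

theorem filter_split (G : Finset (Finset V)) (hG : ∀ e ∈ G, e.card = 3) {S : Finset V}
    (hS : S.card = 4) :
    (G.filter (fun f => f ⊆ S)).card + ((miss G).filter (fun f => f ⊆ S)).card = 4 := by
  rw [← card_union_of_disjoint]
  · have : G.filter (fun f => f ⊆ S) ∪ (miss G).filter (fun f => f ⊆ S) = S.powersetCard 3 := by
      ext f
      simp only [mem_union, mem_filter, mem_miss, mem_powersetCard]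
      constructor
      · rintro (⟨h1, h2⟩ | ⟨⟨h1, -⟩, h2⟩)
        · exact ⟨h2, hG f h1⟩
        · exact ⟨h2, h1⟩
      · rintro ⟨h1, h2⟩
        by_cases h : f ∈ G
        · exact Or.inl ⟨h, h1⟩
        · exact Or.inr ⟨⟨h2, h⟩, h1⟩
    rw [this, card_powersetCard, hS]
    rfl
  · rw [disjoint_left]
    intro f h1 h2
    simp only [mem_filter, mem_miss] at h1 h2
    exact h2.1.2 h1.1

theorem dd_le {G : Finset (Finset V)} (hG : ∀ e ∈ G, e.card = 3) {e : Finset V} (he : e ∈ G)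
    (x : V) : dd (miss G) e x ≤ if x ∈ defects G e then 1 else 0 := by
  by_cases h : x ∈ defects G e
  · rw [if_pos h]
    unfold dd
    split_ifs <;> norm_num
  · rw [if_neg h]
    unfold dd
    rw [if_neg]
    rintro ⟨hx, hg⟩
    apply h
    rw [defects, mem_filter]
    refine ⟨mem_univ _, hx, fun h3 => hg ⟨fun h' => (mem_miss.mp h').2 he, ?_⟩⟩
    have h4 : (insert x e).card = 4 := by rw [card_insert_of_notMem hx, hG e he]
    have := filter_split G hG h4
    omega

theorem dd_sum {G : Finset (Finset V)} (hG : ∀ e ∈ G, e.card = 3) {e : Finset V} (he : e ∈ G) :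
    ∑ x : V, dd (miss G) e x ≤ (defects G e).card := by
  calc ∑ x : V, dd (miss G) e x ≤ ∑ x : V, (if x ∈ defects G e then 1 else 0) :=
        sum_le_sum fun x _ => dd_le hG he x
    _ = (defects G e).card := by
        rw [← card_filter, filter_mem_eq_inter, univ_inter]

theorem card_miss {G : Finset (Finset V)} (hG : ∀ e ∈ G, e.card = 3) :
    (miss G).card + G.card = (Fintype.card V).choose 3 := by
  have hsub : G ⊆ univ.powersetCard 3 := fun e he => by
    rw [mem_powersetCard]; exact ⟨subset_univ _, hG e he⟩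
  have := card_sdiff_add_card_eq_card hsub
  rw [card_powersetCard, card_univ] at this
  exact this

theorem six_miss {G : Finset (Finset V)} (hG : ∀ e ∈ G, e.card = 3) :
    6 * ((miss G).card : ℝ) + 6 * (G.card : ℝ) ≤ (Fintype.card V : ℝ) ^ 3 := by
  have h1 := card_miss hG
  have h2 : 6 * (Fintype.card V).choose 3 ≤ Fintype.card V ^ 3 := by
    have h := Nat.descFactorial_eq_factorial_mul_choose (Fintype.card V) 3
    have h6 : Nat.factorial 3 = 6 := rfl
    rw [h6] at h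
    rw [← h]
    exact Nat.descFactorial_le_pow _ _
  have h3 : 6 * ((miss G).card + G.card) ≤ Fintype.card V ^ 3 := by rw [h1]; exact h2
  have h4 : ((6 * ((miss G).card + G.card) : ℕ) : ℝ) ≤ ((Fintype.card V ^ 3 : ℕ) : ℝ) :=
    Nat.cast_le.mpr h3
  push_cast at h4
  linarith

end aux

theorem kostochka_eq {r : ℕ} (σ : Fin r → Bool) :
    kostochka σ = (univ.powersetCard 3) \ TBK σ := by
  ext t
  simp only [kostochka, TBK, mem_sdiff, mem_filter, mem_powersetCard, not_and, not_exists]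
  constructor
  · rintro ⟨h1, h2⟩
    refine ⟨h1, fun _ u hu h => ?_⟩
    rcases h with h | h
    · exact (h2 u hu).1 h
    · exact (h2 u hu).2 h
  · rintro ⟨h1, h2⟩
    exact ⟨h1, fun u hu => ⟨fun h => h2 h1 u hu (Or.inl h), fun h => h2 h1 u hu (Or.inr h)⟩⟩

theorem kostochka_three {r : ℕ} (σ : Fin r → Bool) : ∀ e ∈ kostochka σ, e.card = 3 := by
  intro e he
  rw [kostochka_eq, mem_sdiff, mem_powersetCard] at he
  exact he.1.2

theorem layer_eq {r : ℕ} (m : Fin r) : layer m = fib m := by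
  ext x
  rw [mem_fib]
  simp [layer]

/-- the arithmetic -/
theorem arith {n r : ℝ} {S N Dd E θ Dis : ℝ} (hθ : 0 < θ) (hθ1 : θ ≤ 1) (hn : 1 ≤ θ ^ 4 * n)
    (hr0 : 0 ≤ r) (hr1 : 3 * r ≤ n) (hr2 : n - 3 * r ≤ θ ^ 4 * n) (hS : S ≤ (4 / 9 + θ ^ 4) * n ^ 3)
    (hD0 : 0 ≤ Dd) (hD : Dd ≤ θ ^ 4 * n ^ 2) (hN0 : 0 ≤ N)
    (hN : 12 * r ^ 3 + N ≤ S + 39 * r ^ 2 + 78 * r * Dd) (hE0 : 0 ≤ E)
    (hE : E ^ 4 ≤ 81 * (8 * r ^ 4 * (16 * r * N) + 2 * r ^ 4))
    (hDis : Dis ≤ 27 * (4 * N + 3 * (r * E))) :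
    Dis ≤ 3753 * θ * n ^ 3 := by
  have hθ4 : 0 < θ ^ 4 := by positivity
  have hθ4' : θ ^ 4 ≤ θ := by
    calc θ ^ 4 = θ * θ ^ 3 := by ring
      _ ≤ θ * 1 := mul_le_mul_of_nonneg_left (pow_le_one₀ hθ.le hθ1) hθ.le
      _ = θ := mul_one _
  have hθ41 : θ ^ 4 ≤ 1 := hθ4'.trans hθ1
  set η := θ ^ 4 with hη
  have hn1 : 1 ≤ n := by
    by_contra h
    push Not at h
    have hn0 : 0 ≤ n := by linarith
    nlinarith
  have hn0 : 0 ≤ n := by linarith
  have hn2 : n ^ 2 ≤ η * n ^ 3 := by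
    have : n ^ 2 * 1 ≤ n ^ 2 * (η * n) := mul_le_mul_of_nonneg_left hn (sq_nonneg n)
    linarith [this, show n ^ 2 * (η * n) = η * n ^ 3 by ring]
  have hr3 : r ≤ n / 3 := by linarith
  -- the bound for `N`
  have hNb : N ≤ 33 * η * n ^ 3 := by
    have h1 : 12 * r ^ 3 ≥ 4 / 9 * (1 - 3 * η) * n ^ 3 := by
      have h2 : (1 - η) * n ≤ 3 * r := by linarith
      have h3 : 0 ≤ (1 - η) * n := mul_nonneg (by linarith) hn0
      have h4 : ((1 - η) * n) ^ 3 ≤ (3 * r) ^ 3 := pow_le_pow_left₀ h3 h2 3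
      have h5 : (1 - 3 * η) * n ^ 3 ≤ ((1 - η) * n) ^ 3 := by
        have h6 : 1 - 3 * η ≤ (1 - η) ^ 3 := by nlinarith [hθ4.le, mul_nonneg hθ4.le hθ4.le]
        calc (1 - 3 * η) * n ^ 3 ≤ (1 - η) ^ 3 * n ^ 3 :=
              mul_le_mul_of_nonneg_right h6 (by positivity)
          _ = ((1 - η) * n) ^ 3 := by ring
      nlinarith
    have h7 : r ^ 2 ≤ n ^ 2 / 9 := by nlinarith
    have h8 : r * Dd ≤ n / 3 * (η * n ^ 2) := mul_le_mul hr3 hD hD0 (by linarith)
    nlinarith
  -- the bound for `E`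
  have hEb : E ≤ 7 * θ * n ^ 2 := by
    have h1 : 8 * r ^ 4 * (16 * r * N) ≤ 8 * (n / 3) ^ 4 * (16 * (n / 3) * (33 * η * n ^ 3)) := by
      have h2 : r ^ 4 ≤ (n / 3) ^ 4 := pow_le_pow_left₀ hr0 hr3 4
      have h3 : r * N ≤ (n / 3) * (33 * η * n ^ 3) := mul_le_mul hr3 hNb hN0 (by linarith)
      have h4 : 0 ≤ r * N := mul_nonneg hr0 hN0
      have h5 : r ^ 4 * (r * N) ≤ (n / 3) ^ 4 * ((n / 3) * (33 * η * n ^ 3)) :=
        mul_le_mul h2 h3 h4 (by positivity)
      linarith [h5, show 8 * r ^ 4 * (16 * r * N) = 128 * (r ^ 4 * (r * N)) by ring,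
        show 8 * (n / 3) ^ 4 * (16 * (n / 3) * (33 * η * n ^ 3)) =
          128 * ((n / 3) ^ 4 * ((n / 3) * (33 * η * n ^ 3))) by ring]
    have h6 : 2 * r ^ 4 ≤ 2 * (n / 3) ^ 4 := by
      have := pow_le_pow_left₀ hr0 hr3 4
      linarith
    have h7 : n ^ 4 ≤ η * n ^ 8 := by
      have h8 : 1 ≤ n ^ 3 := one_le_pow₀ hn1
      have h9 : n ^ 4 * 1 ≤ n ^ 4 * ((η * n) * n ^ 3) := by
        apply mul_le_mul_of_nonneg_left _ (by positivity)
        nlinarith
      linarith [h9, show n ^ 4 * ((η * n) * n ^ 3) = η * n ^ 8 by ring]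
    have h10 : E ^ 4 ≤ (7 * θ * n ^ 2) ^ 4 := by
      have e1 : (7 * θ * n ^ 2) ^ 4 = 2401 * (η * n ^ 8) := by rw [hη]; ring
      have e2 : 81 * (8 * (n / 3) ^ 4 * (16 * (n / 3) * (33 * η * n ^ 3)) + 2 * (n / 3) ^ 4) =
          1408 * (η * n ^ 8) + 2 * n ^ 4 := by ring
      have h11 : 0 ≤ η * n ^ 8 := by positivity
      rw [e1]
      have : 81 * (8 * r ^ 4 * (16 * r * N) + 2 * r ^ 4) ≤
          81 * (8 * (n / 3) ^ 4 * (16 * (n / 3) * (33 * η * n ^ 3)) + 2 * (n / 3) ^ 4) := by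
        linarith
      linarith
    exact le_of_pow_le_pow_left₀ (by norm_num) (by positivity) h10
  have h12 : r * E ≤ n / 3 * (7 * θ * n ^ 2) := mul_le_mul hr3 hEb hE0 (by linarith)
  have h13 : η * n ^ 3 ≤ θ * n ^ 3 := mul_le_mul_of_nonneg_right hθ4' (by positivity)
  nlinarith

/-- the triples which are treated differently -/
theorem symm_le {V : Type} [Fintype V] [DecidableEq V] {r : ℕ} {G : Finset (Finset V)}
    (hG : ∀ e ∈ G, e.card = 3) (σ : Fin r → Bool) {ψ : Fin 3 × Fin r → V}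
    (hψ : Function.Injective ψ) :
    (symmDiff G ((kostochka σ).image (fun e => e.image ψ))).card ≤
      ((univ : Finset ((Fin 3 × Fin r) × (Fin 3 × Fin r) × (Fin 3 × Fin r))).filter (fun t =>
        ¬ (({ψ t.1, ψ t.2.1, ψ t.2.2} : Finset V) ∈ miss G ↔
          ({t.1, t.2.1, t.2.2} : Finset (Fin 3 × Fin r)) ∈ TBK σ))).card +
      (univ.image ψ)ᶜ.card * (Fintype.card V * Fintype.card V) := by
  set K := (kostochka σ).image (fun e => e.image ψ) with hK
  set Ds := (univ : Finset ((Fin 3 × Fin r) × (Fin 3 × Fin r) × (Fin 3 × Fin r))).filter (fun t =>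
        ¬ (({ψ t.1, ψ t.2.1, ψ t.2.2} : Finset V) ∈ miss G ↔
          ({t.1, t.2.1, t.2.2} : Finset (Fin 3 × Fin r)) ∈ TBK σ)) with hDs
  have hK3 : ∀ e ∈ K, e.card = 3 := by
    intro e he
    rw [hK, mem_image] at he
    obtain ⟨f, hf, rfl⟩ := he
    rw [card_image_of_injective _ hψ]
    exact kostochka_three σ f hf
  have hX3 : ∀ e ∈ symmDiff G K, e.card = 3 := by
    intro e he
    rw [mem_symmDiff] at he
    rcases he with he | he
    · exact hG e he.1
    · exact hK3 e he.1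
  have hsub : symmDiff G K ⊆
      Ds.image (fun t => ({ψ t.1, ψ t.2.1, ψ t.2.2} : Finset V)) ∪
      ((univ.image ψ)ᶜ ×ˢ ((univ : Finset V) ×ˢ (univ : Finset V))).image
        (fun t => ({t.1, t.2.1, t.2.2} : Finset V)) := by
    intro e he
    obtain ⟨a, b, c, hab, hac, hbc, rfl⟩ := card_eq_three.mp (hX3 e he)
    rw [mem_union]
    by_cases ha : a ∈ univ.image ψ
    · by_cases hb : b ∈ univ.image ψ
      · by_cases hc : c ∈ univ.image ψ
        · left
          rw [mem_image] at ha hb hc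
          obtain ⟨x, -, rfl⟩ := ha
          obtain ⟨y, -, rfl⟩ := hb
          obtain ⟨z, -, rfl⟩ := hc
          rw [mem_image]
          refine ⟨(x, y, z), ?_, rfl⟩
          rw [hDs, mem_filter]
          refine ⟨mem_univ _, fun hiff => ?_⟩
          have hxy : x ≠ y := fun e => hab (by rw [e])
          have hxz : x ≠ z := fun e => hac (by rw [e])
          have hyz : y ≠ z := fun e => hbc (by rw [e])
          have h3 : ({x, y, z} : Finset (Fin 3 × Fin r)).card = 3 :=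
            card_eq_three.mpr ⟨x, y, z, hxy, hxz, hyz, rfl⟩
          have h4 : (({x, y, z} : Finset (Fin 3 × Fin r)).image ψ) = {ψ x, ψ y, ψ z} := by
            rw [image_insert, image_insert, image_singleton]
          have h5 : ({ψ x, ψ y, ψ z} : Finset V) ∈ K ↔ ({x, y, z} : Finset (Fin 3 × Fin r)) ∉
              TBK σ := by
            rw [hK, ← h4, mem_image]
            constructor
            · rintro ⟨f, hf, hfe⟩
              have : f = {x, y, z} := Finset.image_injective hψ hfe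
              rw [this, kostochka_eq, mem_sdiff] at hf
              exact hf.2
            · intro h
              refine ⟨_, ?_, rfl⟩
              rw [kostochka_eq, mem_sdiff, mem_powersetCard]
              exact ⟨⟨subset_univ _, h3⟩, h⟩
          have h6 := hX3 _ he
          dsimp only at hiff
          rw [mem_miss] at hiff
          rw [mem_symmDiff, h5] at he
          tauto
        · right
          rw [mem_image]
          refine ⟨(c, a, b), ?_, ?_⟩
          · simp only [mem_product, mem_compl, mem_univ, and_true]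
            exact hc
          · ext v; simp only [mem_insert, mem_singleton]; tauto
      · right
        rw [mem_image]
        refine ⟨(b, a, c), ?_, ?_⟩
        · simp only [mem_product, mem_compl, mem_univ, and_true]
          exact hb
        · ext v; simp only [mem_insert, mem_singleton]; tauto
    · right
      rw [mem_image]
      refine ⟨(a, b, c), ?_, rfl⟩
      simp only [mem_product, mem_compl, mem_univ, and_true]
      exact ha
  refine (card_le_card hsub).trans ((card_union_le _ _).trans (Nat.add_le_add card_image_le ?_))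
  refine card_image_le.trans ?_
  rw [card_product, card_product, card_univ]

/-- the data of a nearly saturated family -/
theorem setup {θ : ℝ} (hθ : 0 < θ) (hθ1 : θ < 1) {V : Type} [Fintype V] [DecidableEq V]
    {G : Finset (Finset V)} {r : ℕ} {B : Fin r → Finset V} (hG : TetrahedronFree G)
    (hn : 1 ≤ θ ^ 4 * (Fintype.card V : ℝ)) (hNS : NearlySaturated (θ ^ 4) G B) :
    3 * (r : ℝ) ≤ (Fintype.card V : ℝ) ∧ 0 < r ∧
    ((∑ i, ∑ j, ∑ k, bx (miss G) (B i) (B j) (B k) : ℕ) : ℝ) ≤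
      (Fintype.card V : ℝ) ^ 3 - 6 * (G.card : ℝ) ∧
    ((∑ i, ∑ j, D (miss G) B i j : ℕ) : ℝ) ≤ θ ^ 4 * (Fintype.card V : ℝ) ^ 2 ∧
    (12 : ℝ) * (r : ℝ) ^ 3 + ((NTs (miss G) B).card : ℝ) ≤
      ((∑ i, ∑ j, ∑ k, bx (miss G) (B i) (B j) (B k) : ℕ) : ℝ) + 39 * (r : ℝ) ^ 2 +
      78 * r * ((∑ i, ∑ j, D (miss G) B i j : ℕ) : ℝ) := by
  obtain ⟨hBG, hdis, hs, hD⟩ := hNS
  have hB : ∀ i, (B i).card = 3 := fun i => hG.1 _ (hBG i)
  have hT := cov_miss hG
  have hθ4 : 0 < θ ^ 4 := by positivity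
  have hθ41 : θ ^ 4 < 1 := pow_lt_one₀ hθ.le hθ1 (by norm_num)
  have hU : (univ.biUnion B).card = 3 * r := by
    rw [card_biUnion (fun i _ j _ h => hdis i j h), sum_congr rfl (fun i _ => hB i), sum_const,
      card_univ, Fintype.card_fin, smul_eq_mul, mul_comm]
  have hrn : 3 * r ≤ Fintype.card V := by rw [← hU]; exact card_le_univ _
  have hrn' : 3 * (r : ℝ) ≤ (Fintype.card V : ℝ) := by exact_mod_cast hrn
  set n : ℝ := (Fintype.card V : ℝ) with hnd
  have hn0 : 0 ≤ n := Nat.cast_nonneg _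
  have hr : 0 < r := by
    rcases Nat.eq_zero_or_pos r with h | h
    · exfalso
      subst h
      have h1 : n ≤ θ ^ 4 * n := by simpa using hs
      have h2 : n < 1 := by nlinarith
      nlinarith
    · exact h
  -- the sum over the blocks
  have hS1 : ∑ i, ∑ j, ∑ k, bx (miss G) (B i) (B j) (B k) =
      bx (miss G) (univ.biUnion B) (univ.biUnion B) (univ.biUnion B) := by
    rw [bx_first (miss G) hdis]
    refine sum_congr rfl fun i _ => ?_
    rw [bx_second (miss G) hdis]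
    refine sum_congr rfl fun j _ => ?_
    rw [bx_third (miss G) hdis]
  have hS2 : ∑ i, ∑ j, ∑ k, bx (miss G) (B i) (B j) (B k) ≤ 6 * (miss G).card := by
    rw [hS1]
    have h1 := split (T := miss G) (univ.biUnion B)
    have h2 := sum_g_le hT.1
    omega
  have hS : ((∑ i, ∑ j, ∑ k, bx (miss G) (B i) (B j) (B k) : ℕ) : ℝ) ≤
      n ^ 3 - 6 * (G.card : ℝ) := by
    have h1 := six_miss hG.1
    have h2 : ((∑ i, ∑ j, ∑ k, bx (miss G) (B i) (B j) (B k) : ℕ) : ℝ) ≤
        6 * ((miss G).card : ℝ) := by exact_mod_cast hS2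
    rw [← hnd] at h1
    linarith
  -- the defects
  have hDd : ((∑ i, ∑ j, D (miss G) B i j : ℕ) : ℝ) ≤ θ ^ 4 * n ^ 2 := by
    have h1 : ∑ i, ∑ j, D (miss G) B i j ≤ ∑ i, (defects G (B i)).card := by
      refine sum_le_sum fun i _ => ?_
      have h2 : ∑ j, D (miss G) B i j = ∑ x ∈ univ.biUnion B, dd (miss G) (B i) x := by
        rw [sum_U hdis]; rfl
      rw [h2]
      exact (sum_le_sum_of_subset (subset_univ _)).trans (dd_sum hG.1 (hBG i))
    have h3 : ((∑ i, ∑ j, D (miss G) B i j : ℕ) : ℝ) ≤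
        ((∑ i, (defects G (B i)).card : ℕ) : ℝ) := Nat.cast_le.mpr h1
    push_cast at h3 ⊢
    linarith
  have hN : (12 : ℝ) * (r : ℝ) ^ 3 + ((NTs (miss G) B).card : ℝ) ≤
      ((∑ i, ∑ j, ∑ k, bx (miss G) (B i) (B j) (B k) : ℕ) : ℝ) + 39 * (r : ℝ) ^ 2 +
      78 * r * ((∑ i, ∑ j, D (miss G) B i j : ℕ) : ℝ) := by
    have := NTs_le hT hB hdis
    exact_mod_cast this
  exact ⟨hrn', hr, hS, hDd, hN⟩

/-- the arithmetic of the upper bound -/
theorem arith_upper {n r η S N Dd g : ℝ} (hη : 0 < η) (hη1 : η < 1) (hn : 1 ≤ η * n)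
    (hr0 : 0 ≤ r) (hr1 : 3 * r ≤ n) (hr2 : n - 3 * r ≤ η * n) (hS : S ≤ n ^ 3 - 6 * g)
    (hD0 : 0 ≤ Dd) (hD : Dd ≤ η * n ^ 2) (hN0 : 0 ≤ N)
    (hN : 12 * r ^ 3 + N ≤ S + 39 * r ^ 2 + 78 * r * Dd) :
    g ≤ (5 / 9 + 32 * η) * (n ^ 3 / 6) := by
  have hn0 : 0 ≤ n := by nlinarith
  have hn2 : n ^ 2 ≤ η * n ^ 3 := by
    have : n ^ 2 * 1 ≤ n ^ 2 * (η * n) := mul_le_mul_of_nonneg_left hn (sq_nonneg n)
    linarith [this, show n ^ 2 * (η * n) = η * n ^ 3 by ring]
  have hr3 : r ≤ n / 3 := by linarith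
  have h1 : 12 * r ^ 3 ≥ 4 / 9 * (1 - 3 * η) * n ^ 3 := by
    have h2 : (1 - η) * n ≤ 3 * r := by linarith
    have h3 : 0 ≤ (1 - η) * n := mul_nonneg (by linarith) hn0
    have h4 : ((1 - η) * n) ^ 3 ≤ (3 * r) ^ 3 := pow_le_pow_left₀ h3 h2 3
    have h5 : (1 - 3 * η) * n ^ 3 ≤ ((1 - η) * n) ^ 3 := by
      have h6 : 1 - 3 * η ≤ (1 - η) ^ 3 := by nlinarith [hη.le, mul_nonneg hη.le hη.le]
      calc (1 - 3 * η) * n ^ 3 ≤ (1 - η) ^ 3 * n ^ 3 :=
            mul_le_mul_of_nonneg_right h6 (by positivity)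
        _ = ((1 - η) * n) ^ 3 := by ring
    nlinarith
  have h7 : r ^ 2 ≤ n ^ 2 / 9 := by nlinarith
  have h8 : r * Dd ≤ n / 3 * (η * n ^ 2) := mul_le_mul hr3 hD hD0 (by linarith)
  nlinarith

theorem saturated_layer {r : ℕ} (σ : Fin r → Bool) (m : Fin r) :
    layer m ∈ kostochka σ ∧ defects (kostochka σ) (layer m) = ∅ := by
  have h3 := kostochka_three σ
  have hmem : layer m ∈ kostochka σ := by
    rw [layer_eq, kostochka_eq, mem_sdiff, mem_powersetCard]
    exact ⟨⟨subset_univ _, fib_card m⟩, fib_notMem σ m⟩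
  refine ⟨hmem, ?_⟩
  rw [defects, filter_eq_empty_iff]
  rintro x - ⟨hx, h⟩
  apply h
  have hmiss : miss (kostochka σ) = TBK σ := by
    ext t
    rw [mem_miss, kostochka_eq, mem_sdiff, mem_powersetCard]
    constructor
    · rintro ⟨h1, h2⟩
      by_contra h
      exact h2 ⟨⟨subset_univ _, h1⟩, h⟩
    · intro h
      exact ⟨(TBK_cov σ).1 t h, fun h' => h'.2 h⟩
  have hg := (TBK_good σ m x (by rw [← layer_eq]; exact hx)).2
  rw [← hmiss, ← layer_eq] at hg
  have h4 : (insert x (layer m)).card = 4 := by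
    rw [card_insert_of_notMem hx, h3 _ hmem]
  have := filter_split (kostochka σ) h3 h4
  omega

theorem kostochka_free {r : ℕ} (σ : Fin r → Bool) : TetrahedronFree (kostochka σ) := by
  refine ⟨kostochka_three σ, fun S hS => ?_⟩
  obtain ⟨t, h1, h2⟩ := (TBK_cov σ).2 S hS
  refine ⟨t, h2, (TBK_cov σ).1 t h1, ?_⟩
  rw [kostochka_eq, mem_sdiff]
  exact fun h => h.2 h1

theorem kostochka_card {r : ℕ} (σ : Fin r → Bool) :
    5 * r ^ 3 ≤ 2 * (kostochka σ).card + 3 * r ^ 2 := by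
  have h1 := TBK_card σ
  have h2 : (TBK σ).card + (kostochka σ).card = (3 * r).choose 3 := by
    have hsub : TBK σ ⊆ univ.powersetCard 3 := fun e he => by
      rw [mem_powersetCard]; exact ⟨subset_univ _, (TBK_cov σ).1 e he⟩
    have h3 := card_sdiff_add_card_eq_card hsub
    rw [card_powersetCard, card_univ] at h3
    rw [kostochka_eq, add_comm, h3]
    simp
  have h4 : 6 * (3 * r).choose 3 = 3 * r * (3 * r - 1) * (3 * r - 2) := by
    have h := Nat.descFactorial_eq_factorial_mul_choose (3 * r) 3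
    have h6 : Nat.factorial 3 = 6 := rfl
    rw [h6] at h
    rw [← h]
    simp only [Nat.descFactorial, Nat.sub_zero]
    ring
  rcases r with _ | r
  · simp
  · have e1 : 3 * (r + 1) - 1 = 3 * r + 2 := by omega
    have e2 : 3 * (r + 1) - 2 = 3 * r + 1 := by omega
    rw [← h2, e1, e2] at h4
    zify at h4 ⊢
    push_cast at h1 h4 ⊢
    nlinarith

/-- **Value and stability.** -/
theorem result :
    -- (1) the upper bound
    (∀ θ : ℝ, 0 < θ → θ < 1 → ∀ (V : Type) [Fintype V] [DecidableEq V] (G : Finset (Finset V))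
      (r : ℕ) (B : Fin r → Finset V), TetrahedronFree G → NearlySaturated (θ ^ 4) G B →
      1 ≤ θ ^ 4 * (Fintype.card V : ℝ) →
      (G.card : ℝ) ≤ (5 / 9 + 32 * θ ^ 4) * ((Fintype.card V : ℝ) ^ 3 / 6)) ∧
    -- (2) stability
    (∀ θ : ℝ, 0 < θ → θ < 1 → ∀ (V : Type) [Fintype V] [DecidableEq V] (G : Finset (Finset V))
      (r : ℕ) (B : Fin r → Finset V), TetrahedronFree G → NearlySaturated (θ ^ 4) G B →
      1 ≤ θ ^ 4 * (Fintype.card V : ℝ) →
      (5 / 9 - θ ^ 4) * ((Fintype.card V : ℝ) ^ 3 / 6) ≤ (G.card : ℝ) →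
      ∃ (σ : Fin r → Bool) (ψ : Fin 3 × Fin r → V) (p : Equiv.Perm (Fin r)),
        Function.Injective ψ ∧ (∀ m, (layer m).image ψ = B (p m)) ∧
        ((symmDiff G ((kostochka σ).image (fun e => e.image ψ))).card : ℝ) ≤
          3754 * θ * (Fintype.card V : ℝ) ^ 3) ∧
    -- (3) all configurations occur
    (∀ (r : ℕ) (σ : Fin r → Bool), TetrahedronFree (kostochka σ) ∧
      NearlySaturated 0 (kostochka σ) (layer (r := r)) ∧
      5 * r ^ 3 ≤ 2 * (kostochka σ).card + 3 * r ^ 2) := by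
  refine ⟨?_, ?_, ?_⟩
  · intro θ hθ hθ1 V _ _ G r B hG hNS hn
    obtain ⟨hrn', hr, hS, hDd, hN⟩ := setup hθ hθ1 hG hn hNS
    exact arith_upper (by positivity) (pow_lt_one₀ hθ.le hθ1 (by norm_num)) hn
      (Nat.cast_nonneg r) hrn' hNS.2.2.1 hS (Nat.cast_nonneg _) hDd (Nat.cast_nonneg _) hN
  · intro θ hθ hθ1 V _ _ G r B hG hNS hn hcard
    obtain ⟨hrn', hr, hS0, hDd, hN⟩ := setup hθ hθ1 hG hn hNS
    obtain ⟨hBG, hdis, hs, hD⟩ := hNS
    have hB : ∀ i, (B i).card = 3 := fun i => hG.1 _ (hBG i)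
    have hT := cov_miss hG
    have hθ4' : θ ^ 4 ≤ θ := by
      calc θ ^ 4 = θ * θ ^ 3 := by ring
        _ ≤ θ * 1 := mul_le_mul_of_nonneg_left (pow_le_one₀ hθ.le hθ1.le) hθ.le
        _ = θ := mul_one _
    have hrn : 3 * r ≤ Fintype.card V := by exact_mod_cast hrn'
    set n : ℝ := (Fintype.card V : ℝ) with hnd
    have hn0 : 0 ≤ n := Nat.cast_nonneg _
    have hS : ((∑ i, ∑ j, ∑ k, bx (miss G) (B i) (B j) (B k) : ℕ) : ℝ) ≤
        (4 / 9 + θ ^ 4) * n ^ 3 := by linarith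
    obtain ⟨σ, ψ, p, E, hψ, hp, himg, hE, hDis⟩ := stability hr hT hB hdis
    have hE' : (E : ℝ) ^ 4 ≤ 81 * (8 * (r : ℝ) ^ 4 * (16 * r * ((NTs (miss G) B).card : ℝ)) +
        2 * (r : ℝ) ^ 4) := by exact_mod_cast hE
    have hDis' : ((((univ : Finset ((Fin 3 × Fin r) × (Fin 3 × Fin r) × (Fin 3 × Fin r))).filter
        (fun t => ¬ (({ψ t.1, ψ t.2.1, ψ t.2.2} : Finset V) ∈ miss G ↔
          ({t.1, t.2.1, t.2.2} : Finset (Fin 3 × Fin r)) ∈ TBK σ))).card : ℕ) : ℝ) ≤
        27 * (4 * ((NTs (miss G) B).card : ℝ) + 3 * ((r : ℝ) * (E : ℝ))) := by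
      exact_mod_cast hDis
    have hfin := arith hθ hθ1.le hn (Nat.cast_nonneg r) hrn' hs hS (Nat.cast_nonneg _) hDd
      (Nat.cast_nonneg _) hN (Nat.cast_nonneg _) hE' hDis'
    refine ⟨σ, ψ, Equiv.ofBijective p (Finite.injective_iff_bijective.mp hp), hψ, ?_, ?_⟩
    · intro m
      rw [layer_eq, himg]
      rfl
    · have h1 := symm_le hG.1 σ hψ
      have hc : ((univ.image ψ)ᶜ.card : ℝ) = n - 3 * r := by
        have h2 : (univ.image ψ).card = 3 * r := by
          rw [card_image_of_injective _ hψ]; simp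
        rw [card_compl, h2, Nat.cast_sub hrn, ← hnd]
        push_cast
        ring
      have h3 : ((symmDiff G ((kostochka σ).image (fun e => e.image ψ))).card : ℝ) ≤
          ((((univ : Finset ((Fin 3 × Fin r) × (Fin 3 × Fin r) × (Fin 3 × Fin r))).filter
        (fun t => ¬ (({ψ t.1, ψ t.2.1, ψ t.2.2} : Finset V) ∈ miss G ↔
          ({t.1, t.2.1, t.2.2} : Finset (Fin 3 × Fin r)) ∈ TBK σ))).card : ℕ) : ℝ) +
          ((univ.image ψ)ᶜ.card : ℝ) * (n * n) := by
        rw [hnd]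
        exact_mod_cast h1
      rw [hc] at h3
      have h4 : (n - 3 * r) * (n * n) ≤ θ * n ^ 3 := by
        have h5 : (n - 3 * r) * (n * n) ≤ (θ ^ 4 * n) * (n * n) :=
          mul_le_mul_of_nonneg_right hs (mul_nonneg hn0 hn0)
        have h6 : θ ^ 4 * n ^ 3 ≤ θ * n ^ 3 := mul_le_mul_of_nonneg_right hθ4' (by positivity)
        nlinarith
      linarith
  · intro r σ
    refine ⟨kostochka_free σ, ⟨fun i => (saturated_layer σ i).1, fun i j hij => ?_, ?_, ?_⟩,
      kostochka_card σ⟩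
    · rw [layer_eq, layer_eq]
      exact fib_disj i j hij
    · simp
    · simp [(saturated_layer σ _).2]

end Pool.Agent.Results.MP_a4d830_co.StabilitySaturated
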